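import Pool.Agent.X228.MTL.Basic

/-!
# MP_acc005_lc: there is no least axiomatic extension of MTL with deductive interpolation

Let `B` be the chain `0 < b < a < 1` in which all products of elements different from `1` are
`0`, and `C` the five-element Lukasiewicz chain.  Their logics have deductive interpolation, but
`B` and `C` cannot be amalgamated over their three-element subalgebra `{0, a, 1}` within
MTL-algebras.
-/

set_option autoImplicit false

namespace Pool.Agent.Results.MP_acc005_lc.NoLeastExtension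

open Pool.Agent.X228.MTL

/-! ## Logics of a single finite algebra -/

section finite
variable {B : Type} [FLew B] [Finite B]

theorem compact_single : Compact (ι := Unit) fun _ => B := by
  classical
  intro S hS
  have h1 : ∀ s : Finset S, ∃ v : ℕ → B, ∀ φ ∈ s, ev v φ.1 = 1 := by
    intro s
    obtain ⟨_, v, hv⟩ := hS (s.toList.map Subtype.val) (by
      intro φ hφ
      obtain ⟨ψ, -, rfl⟩ := List.mem_map.1 hφ
      exact ψ.2)
    exact ⟨v, fun φ hφ => hv φ.1 (List.mem_map.2 ⟨φ, Finset.mem_toList.2 hφ, rfl⟩)⟩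
  choose v hv using h1
  let U : Ultrafilter (Finset S) := Ultrafilter.of Filter.atTop
  have h2 : ∀ n : ℕ, ∃ b : B, ∀ᶠ s in (U : Filter (Finset S)), v s n = b := by
    intro n
    obtain ⟨b, hb⟩ := Ultrafilter.eq_pure_of_finite (U.map fun s => v s n)
    refine ⟨b, ?_⟩
    have h3 : {b} ∈ U.map fun s => v s n := by rw [hb]; rfl
    exact h3
  choose w hw using h2
  refine ⟨(), w, ?_⟩
  have h3 : ∀ φ : Fm, ∀ᶠ s in (U : Filter (Finset S)), ev (v s) φ = ev w φ := by
    intro φ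
    induction φ with
    | var n => exact hw n
    | zero => exact Filter.Eventually.of_forall fun _ => rfl
    | one => exact Filter.Eventually.of_forall fun _ => rfl
    | and φ ψ ih1 ih2 => filter_upwards [ih1, ih2] with s a b; simp only [ev, a, b]
    | or φ ψ ih1 ih2 => filter_upwards [ih1, ih2] with s a b; simp only [ev, a, b]
    | mul φ ψ ih1 ih2 => filter_upwards [ih1, ih2] with s a b; simp only [ev, a, b]
    | imp φ ψ ih1 ih2 => filter_upwards [ih1, ih2] with s a b; simp only [ev, a, b]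
  intro φ hφ
  have h4 : ∀ᶠ s in (U : Filter (Finset S)), ev (v s) φ = 1 := by
    have h5 : ∀ᶠ s in Filter.atTop, ev (v s) φ = 1 := by
      filter_upwards [Filter.eventually_ge_atTop {(⟨φ, hφ⟩ : S)}] with s hs
      exact hv s ⟨φ, hφ⟩ (hs (Finset.mem_singleton_self _))
    exact Ultrafilter.of_le _ h5
  obtain ⟨s, hs1, hs2⟩ := ((h3 φ).and h4).exists
  rw [← hs1, hs2]

omit [Finite B] in
theorem amalg_single
    (h : ∀ (n : ℕ) (v w : ℕ → B), (∀ α : Fm, α.vars ⊆ {n} → (ev v α = 1 ↔ ev w α = 1)) →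
      v n = w n) : Amalg (ι := Unit) fun _ => B := by
  intro V _ _ v w hvw
  refine ⟨(), v, w, fun _ => Iff.rfl, fun _ => Iff.rfl, fun n hn => h n v w fun α hα => ?_⟩
  exact hvw α (hα.trans (by simpa using hn))

/-- The logic of `B`. -/
def LogicOf (B : Type) [FLew B] (Γ : Set Fm) (φ : Fm) : Prop :=
  MTLConseq (Γ ∪ AxOf (ι := Unit) fun _ => B) φ

omit [Finite B] in
theorem logicOf_ext : IsAxExt MTLConseq (LogicOf B) :=
  ⟨AxOf (ι := Unit) fun _ => B, AxOf_subst _, fun _ _ => Iff.rfl⟩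

theorem logicOf_dip (hp : Prelinear B) (hs : ∀ x : B, x = 1 ∨ x ^ 4 = FLew.zero)
    (hnt : (FLew.zero : B) ≠ 1)
    (h : ∀ (n : ℕ) (v w : ℕ → B), (∀ α : Fm, α.vars ⊆ {n} → (ev v α = 1 ↔ ev w α = 1)) →
      v n = w n) :
    (∀ Γ φ, LogicOf B Γ φ ↔ ∀ v : ℕ → B, (∀ γ ∈ Γ, ev v γ = 1) → ev v φ = 1) ∧
      DIP (LogicOf B) := by
  have h1 := dip_of (ι := Unit) (Al := fun _ => B) (C := MTLConseq)
    (fun Γ φ h i v hv => h B hp v hv) (fun Γ φ h A _ _ v hv => h A v hv)
    (fun _ => hs) (fun _ => hnt) compact_single (amalg_single h)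
  refine ⟨fun Γ φ => (h1.1 Γ φ).trans ⟨fun h2 v hv => h2 () v hv, fun h2 _ v hv => h2 v hv⟩, h1.2⟩

end finite

/-! ## The algebra `B` -/

/-- The chain `0 < b < a < 1`. -/
def B4 : Type := Fin 4

instance : LinearOrder B4 := inferInstanceAs (LinearOrder (Fin 4))
instance : Fintype B4 := inferInstanceAs (Fintype (Fin 4))

/-- elements -/
def B4.mk (n : Fin 4) : B4 := n

/-- product -/
def B4.m (x y : B4) : B4 := if x = B4.mk 3 then y else if y = B4.mk 3 then x else B4.mk 0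
/-- residual -/
def B4.r (x y : B4) : B4 :=
  if x ≤ y then B4.mk 3 else if x = B4.mk 3 then y else B4.mk 2

instance : FLew B4 where
  mul := B4.m
  one := B4.mk 3
  mul_assoc := by change ∀ a b c, B4.m (B4.m a b) c = B4.m a (B4.m b c); decide
  one_mul := by change ∀ a, B4.m (B4.mk 3) a = a; decide
  mul_one := by change ∀ a, B4.m a (B4.mk 3) = a; decide
  mul_comm := by change ∀ a b, B4.m a b = B4.m b a; decide
  imp := B4.r
  zero := B4.mk 0
  zero_le' := by decide
  le_one' := by change ∀ a, a ≤ B4.mk 3; decide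
  adj := by change ∀ a b c, B4.m a b ≤ c ↔ a ≤ B4.r b c; decide

/-! ## The algebra `C` -/

/-- The five-element Lukasiewicz chain. -/
def L5 : Type := Fin 5

instance : LinearOrder L5 := inferInstanceAs (LinearOrder (Fin 5))
instance : Fintype L5 := inferInstanceAs (Fintype (Fin 5))

/-- elements -/
def L5.mk (n : Fin 5) : L5 := n

/-- product -/
def L5.m (x y : Fin 5) : Fin 5 := ⟨x.1 + y.1 - 4, by omega⟩
/-- residual -/
def L5.r (x y : Fin 5) : Fin 5 := ⟨min 4 (4 - x.1 + y.1), by omega⟩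

instance : FLew L5 where
  mul := L5.m
  one := L5.mk 4
  mul_assoc := by change ∀ a b c : Fin 5, L5.m (L5.m a b) c = L5.m a (L5.m b c); decide
  one_mul := by change ∀ a : Fin 5, L5.m 4 a = a; decide
  mul_one := by change ∀ a : Fin 5, L5.m a 4 = a; decide
  mul_comm := by change ∀ a b : Fin 5, L5.m a b = L5.m b a; decide
  imp := L5.r
  zero := L5.mk 0
  zero_le' := by decide
  le_one' := by change ∀ a : Fin 5, a ≤ 4; decide
  adj := by change ∀ a b c : Fin 5, L5.m a b ≤ c ↔ a ≤ L5.r b c; decide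

theorem B4_dip : (∀ Γ φ, LogicOf B4 Γ φ ↔ ∀ v : ℕ → B4, (∀ γ ∈ Γ, ev v γ = 1) → ev v φ = 1) ∧
    DIP (LogicOf B4) := by
  apply logicOf_dip
  · change ∀ a b : B4, max (B4.r a b) (B4.r b a) = B4.mk 3
    decide
  · change ∀ x : B4, x = B4.mk 3 ∨ x ^ 4 = B4.mk 0
    intro x
    have h : x ^ 4 = x * x * x * x := by rw [pow_succ, pow_succ, pow_two]
    rw [h]
    have key : ∀ x : B4, x = B4.mk 3 ∨ B4.m (B4.m (B4.m x x) x) x = B4.mk 0 := by decide
    exact key x
  · change B4.mk 0 ≠ B4.mk 3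
    decide
  · intro n v w h
    have h1 := h (.var n) (by simp [Fm.vars])
    have h2 := h (neg (.var n)) (by simp [neg, Fm.vars])
    have h3 := h (eqv (.var n) (neg (.var n))) (by simp [eqv, neg, Fm.vars])
    rw [ev_eqv, ev_eqv] at h3
    simp only [ev, ev_neg] at h1 h2 h3
    have key : ∀ x y : B4, (x = B4.mk 3 ↔ y = B4.mk 3) →
        (B4.r x (B4.mk 0) = B4.mk 3 ↔ B4.r y (B4.mk 0) = B4.mk 3) →
        (x = B4.r x (B4.mk 0) ↔ y = B4.r y (B4.mk 0)) → x = y := by decide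
    exact key _ _ h1 h2 h3

theorem L5_dip : (∀ Γ φ, LogicOf L5 Γ φ ↔ ∀ v : ℕ → L5, (∀ γ ∈ Γ, ev v γ = 1) → ev v φ = 1) ∧
    DIP (LogicOf L5) := by
  apply logicOf_dip
  · change ∀ a b : Fin 5, max (L5.r a b) (L5.r b a) = 4
    decide
  · change ∀ x : L5, x = L5.mk 4 ∨ x ^ 4 = L5.mk 0
    intro x
    have h : x ^ 4 = x * x * x * x := by rw [pow_succ, pow_succ, pow_two]
    rw [h]
    have key : ∀ x : Fin 5, x = 4 ∨ L5.m (L5.m (L5.m x x) x) x = 0 := by decide
    exact key x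
  · change L5.mk 0 ≠ L5.mk 4
    decide
  · intro n v w h
    have h1 := h (.var n) (by simp [Fm.vars])
    have h2 := h (neg (.var n)) (by simp [neg, Fm.vars])
    have h3 := h (eqv (.var n) (neg (.var n))) (by simp [eqv, neg, Fm.vars])
    have h4 := h (eqv (.var n) (.mul (.mul (neg (.var n)) (neg (.var n))) (neg (.var n))))
      (by simp [eqv, neg, Fm.vars])
    rw [ev_eqv, ev_eqv] at h3 h4
    simp only [ev, ev_neg] at h1 h2 h3 h4
    have key : ∀ x y : Fin 5, (x = 4 ↔ y = 4) →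
        (L5.r x 0 = 4 ↔ L5.r y 0 = 4) → (x = L5.r x 0 ↔ y = L5.r y 0) →
        (x = L5.m (L5.m (L5.r x 0) (L5.r x 0)) (L5.r x 0) ↔
          y = L5.m (L5.m (L5.r y 0) (L5.r y 0)) (L5.r y 0)) → x = y := by decide
    exact key _ _ h1 h2 h3 h4

/-! ## The failure of interpolation -/

/-- `¬q ↔ p` and `(p → q) ↔ p`. -/
def Γ₀ : Set Fm := {eqv (neg (.var 1)) (.var 0), eqv (.imp (.var 0) (.var 1)) (.var 0)}

/-- `(¬r → (p → r)) → (¬r → p)`. -/
def φ₀ : Fm := .imp (.imp (neg (.var 2)) (.imp (.var 0) (.var 2))) (.imp (neg (.var 2)) (.var 0))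

theorem consequence (Ax : Set Fm) : MTLConseq (Γ₀ ∪ Ax) φ₀ := by
  intro A _ hp v hv
  have h1 := hv _ (Or.inl (Or.inl rfl))
  have h2 := hv _ (Or.inl (Or.inr rfl))
  rw [ev_eqv] at h1 h2
  simp only [ev, ev_neg] at h1 h2
  simp only [φ₀, ev, ev_neg]
  generalize v 0 = a at h1 h2 ⊢
  generalize v 1 = b at h1 h2 ⊢
  generalize v 2 = c
  rw [imp_eq_one]
  set e := FLew.imp (FLew.imp c FLew.zero) (FLew.imp a c) with he
  have h3 : e = e * (FLew.imp b c ⊔ FLew.imp c b) := by rw [hp b c, mul_one]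
  rw [h3]
  refine (Pool.Agent.X228.MTL.mul_sup _ _ _).trans (sup_le ?_ ?_)
  · have h4 : e * FLew.imp b c ≤ 1 * FLew.imp b c := mul_mono (le_one_ e) le_rfl
    rw [one_mul] at h4
    refine h4.trans ((FLew.adj _ _ _).1 ?_)
    have h5 := imp_trans_le b c FLew.zero
    rw [h1] at h5
    exact h5
  · refine (FLew.adj _ _ _).1 ?_
    have h4 : e * FLew.imp c FLew.zero ≤ FLew.imp a c := mul_imp_le _ _
    have h5 := imp_trans_le a c b
    rw [h2] at h5
    calc e * FLew.imp c b * FLew.imp c FLew.zero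
        = (e * FLew.imp c FLew.zero) * FLew.imp c b := by
          rw [mul_assoc, mul_comm (FLew.imp c b), mul_assoc]
      _ ≤ FLew.imp a c * FLew.imp c b := mul_mono h4 le_rfl
      _ ≤ a := h5

/-- The valuation in `B`. -/
def vB : ℕ → B4 := fun n => if n = 0 then B4.mk 2 else B4.mk 1
/-- The valuation in `C`. -/
def vC : ℕ → L5 := fun n => if n = 0 then L5.mk 2 else L5.mk 1

/-- The isomorphism between the subalgebras `{0, a, 1}`. -/
def Rel (x : B4) (y : L5) : Prop := (x = B4.mk 0 ∧ y = L5.mk 0) ∨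
  (x = B4.mk 2 ∧ y = L5.mk 2) ∨ (x = B4.mk 3 ∧ y = L5.mk 4)

instance (x : B4) (y : L5) : Decidable (Rel x y) := by unfold Rel; infer_instance

/-- product, typed -/
def L5.m2 (x y : L5) : L5 := L5.m x y
/-- residual, typed -/
def L5.r2 (x y : L5) : L5 := L5.r x y

theorem rel_ev (δ : Fm) (h : δ.vars ⊆ {0}) : Rel (ev vB δ) (ev vC δ) := by
  induction δ with
  | var n =>
    have h0 : n = 0 := h rfl
    subst h0
    change Rel (B4.mk 2) (L5.mk 2)
    decide
  | zero => change Rel (B4.mk 0) (L5.mk 0); decide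
  | one => change Rel (B4.mk 3) (L5.mk 4); decide
  | and φ ψ ih1 ih2 =>
    have key : ∀ (x x' : B4) (y y' : L5), Rel x y → Rel x' y' →
        Rel (min x x') (min y y') := by decide
    exact key _ _ _ _ (ih1 fun n hn => h (Or.inl hn)) (ih2 fun n hn => h (Or.inr hn))
  | or φ ψ ih1 ih2 =>
    have key : ∀ (x x' : B4) (y y' : L5), Rel x y → Rel x' y' →
        Rel (max x x') (max y y') := by decide
    exact key _ _ _ _ (ih1 fun n hn => h (Or.inl hn)) (ih2 fun n hn => h (Or.inr hn))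
  | mul φ ψ ih1 ih2 =>
    have key : ∀ (x x' : B4) (y y' : L5), Rel x y → Rel x' y' →
        Rel (B4.m x x') (L5.m2 y y') := by decide
    exact key _ _ _ _ (ih1 fun n hn => h (Or.inl hn)) (ih2 fun n hn => h (Or.inr hn))
  | imp φ ψ ih1 ih2 =>
    have key : ∀ (x x' : B4) (y y' : L5), Rel x y → Rel x' y' →
        Rel (B4.r x x') (L5.r2 y y') := by decide
    exact key _ _ _ _ (ih1 fun n hn => h (Or.inl hn)) (ih2 fun n hn => h (Or.inr hn))

/-- There is no minimum among the axiomatic extensions of `MTL` with deductive interpolation. -/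
theorem result : ¬ ∃ L₀ : Set Fm → Fm → Prop, IsAxExt MTLConseq L₀ ∧ DIP L₀ ∧
    ∀ L : Set Fm → Fm → Prop, IsAxExt MTLConseq L → DIP L → ∀ Γ φ, L₀ Γ φ → L Γ φ := by
  rintro ⟨L₀, ⟨Ax, -, hAx⟩, hdip, hmin⟩
  obtain ⟨Δ, hvars, h1, h2⟩ := hdip Γ₀ φ₀ ((hAx _ _).2 (consequence Ax))
  have hvars' : ∀ δ ∈ Δ, δ.vars ⊆ {0} := by
    intro δ hδ n hn
    have h3 := hvars δ hδ hn
    have h4 : n = 0 ∨ n = 1 := by
      have h5 := h3.1
      simpa [Γ₀, eqv, neg, Fm.vars] using h5
    have h5 : n = 0 ∨ n = 2 := by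
      have h6 := h3.2
      simpa [φ₀, neg, Fm.vars] using h6
    have : n = 0 := by omega
    exact this
  -- in `B`
  have hB : ∀ δ ∈ Δ, ev vB δ = 1 := by
    intro δ hδ
    have h3 := hmin _ logicOf_ext B4_dip.2 _ _ (h1 δ hδ)
    refine (B4_dip.1 _ _).1 h3 vB ?_
    rintro γ (rfl | rfl)
    · rw [ev_eqv]
      change B4.r (B4.mk 1) (B4.mk 0) = B4.mk 2
      decide
    · rw [ev_eqv]
      change B4.r (B4.mk 2) (B4.mk 1) = B4.mk 2
      decide
  -- in `C`
  have hC : ∀ δ ∈ Δ, ev vC δ = 1 := by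
    intro δ hδ
    have h3 := rel_ev δ (hvars' δ hδ)
    rw [hB δ hδ] at h3
    rcases h3 with h3 | h3 | h3
    · exact absurd h3.1 (by change ¬ (B4.mk 3 = B4.mk 0); decide)
    · exact absurd h3.1 (by change ¬ (B4.mk 3 = B4.mk 2); decide)
    · exact h3.2
  have h3 := hmin _ logicOf_ext L5_dip.2 _ _ h2
  have h4 := (L5_dip.1 _ _).1 h3 vC hC
  revert h4
  change ¬ (L5.r (L5.r (L5.r 1 0) (L5.r 2 1)) (L5.r (L5.r 1 0) 2) = 4)
  decide

end Pool.Agent.Results.MP_acc005_lc.NoLeastExtension
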